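import Pool.Agent.U222.TS.Lin

/-!
# Tate classes on the products with smooth varieties
-/

set_option autoImplicit false

open CategoryTheory AlgebraicGeometry TensorProduct

universe u

namespace Pool.Agent.U222.TS

open Pool.Agent.H914 Pool.Agent.H914.VarClass Pool.Agent.H914.VarClass.Obj Pool.Agent.U222.HC
  Pool.Agent.U222.TT
open Pool.Agent.U222.HC.I (pmap pmap_id pmap_comp gprod c1 c2 c_mul nest nest_X cmp eq_one_of_cmp)

variable {k : Type u} [Field k] {𝒱 : VarClass k} {ops : CycleOps 𝒱} {T : TateTheory ops}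
  (A : GVar 𝒱) {V : 𝒱.Obj} (U : AnyVar T)

/-! ### The weights on `H(U)` -/

section weights

variable (τ : T.E)

lemma weights_internal : DirectSum.IsInternal fun r : ℕ × ℤ => U.ht τ r.1 r.2 :=
  (DirectSum.isInternal_submodule_iff_iSupIndep_and_iSup_eq_top _).2
    ⟨(U.weights τ).indep, (U.weights τ).top⟩

/-- The projection to the part of degree `d` and weight `p`. -/
noncomputable def pw (r : ℕ × ℤ) : U.M →ₗ[T.W.K] U.M := prj (weights_internal U τ) r

lemma below_iff {m : ℤ} {x : U.M} :
    (U.ht τ).Below m x ↔ ∀ r : ℕ × ℤ, ¬ 2 * r.2 - r.1 ≤ -m → pw U τ r x = 0 := by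
  classical
  constructor
  · intro hx r hr
    have h : (⨆ r : {r : ℕ × ℤ // 2 * r.2 - r.1 ≤ -m}, U.ht τ r.1.1 r.1.2) ≤
        LinearMap.ker (pw U τ r) := by
      refine iSup_le fun s y hy => ?_
      rw [LinearMap.mem_ker, pw, prj_of_mem (weights_internal U τ) (j := s.1) r hy, if_neg]
      rintro rfl
      exact hr s.2
    exact h hx
  · intro h
    obtain ⟨S, -, hx⟩ := prj_sum (weights_internal U τ) x
    rw [hx]
    refine Submodule.sum_mem _ fun r _ => ?_
    by_cases hr : 2 * r.2 - r.1 ≤ -m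
    · exact Submodule.mem_iSup_of_mem ⟨r, hr⟩ (prj_mem (weights_internal U τ) r x)
    · have h2 := h r hr
      rw [pw] at h2
      rw [h2]
      exact Submodule.zero_mem _

/-- Elements of degree `d` have only components of degree `d`. -/
lemma pw_deg {d : ℕ} {x : U.M} (hx : U.gr.Has d x) {r : ℕ × ℤ} (hr : r.1 ≠ d) :
    pw U τ r x = 0 := by
  classical
  have h : (⨆ p, U.ht τ d p) ≤ LinearMap.ker (pw U τ r) := by
    refine iSup_le fun p y hy => ?_
    rw [LinearMap.mem_ker, pw, prj_of_mem (weights_internal U τ) (j := (d, p)) r hy, if_neg]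
    rintro rfl
    exact hr rfl
  have h2 := (U.weights τ).sum d
  have h3 : x ∈ U.gr d := hx
  rw [h2] at h3
  exact h h3

end weights

/-! ### The components of Tate classes -/


/-- The component of a tensor. -/
noncomputable def cpt (χ : AddChar A.G ℂ) (c : U.Times A.X) : U.Times A.X :=
  (eg T A χ).rTensor U.M (show T.W.H A.X ⊗[T.W.K] U.M from c)

lemma gr_eg (χ : AddChar A.G ℂ) {i : ℕ} {a : T.W.H A.X} (ha : a ∈ T.W.gr A.X i) :
    eg T A χ a ∈ T.W.gr A.X i := by
  rw [eg_apply]
  exact Submodule.smul_mem _ _ (Submodule.sum_mem _ fun g _ => Submodule.smul_mem _ _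
    (T.W.map_mem _ ha))

lemma isTateT_cpt {w : ℕ} {c : U.Times A.X} (hc : U.IsTateT A.X w c) (χ : AddChar A.G ℂ) :
    U.IsTateT A.X w (cpt A U χ c) := by
  constructor
  · have h1 : Submodule.span T.W.K {x : T.W.H A.X ⊗[T.W.K] U.M | ∃ i d a b, i + d = 2 * w ∧
        a ∈ T.W.gr A.X i ∧ U.gr.Has d b ∧ tens T.W.K a b = x} ≤ (Submodule.span T.W.K
        {x : T.W.H A.X ⊗[T.W.K] U.M | ∃ i d a b, i + d = 2 * w ∧
        a ∈ T.W.gr A.X i ∧ U.gr.Has d b ∧ tens T.W.K a b = x}).comap
        ((eg T A χ).rTensor U.M) := by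
      refine Submodule.span_le.2 ?_
      rintro _ ⟨i, d, a, b, hid, ha, hb, rfl⟩
      exact Submodule.subset_span ⟨i, d, eg T A χ a, b, hid, gr_eg A χ ha, hb,
        (LinearMap.rTensor_tmul _ _ _ _).symm⟩
    exact h1 hc.degree
  · refine pot_mono (pot_and hc.fixed (act_eg T A χ)) fun g hg => ?_
    have h1 : ∀ x : T.W.H A.X ⊗[T.W.K] U.M,
        TensorProduct.map (T.act A.X g).toLinearMap (U.act g).toLinearMap
          ((eg T A χ).rTensor U.M x) = (eg T A χ).rTensor U.M
          (TensorProduct.map (T.act A.X g).toLinearMap (U.act g).toLinearMap x) := by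
      intro x
      induction x using TensorProduct.induction_on with
      | zero => rw [map_zero, map_zero, map_zero]
      | tmul a m =>
        rw [LinearMap.rTensor_tmul, TensorProduct.map_tmul, TensorProduct.map_tmul,
          LinearMap.rTensor_tmul]
        congr 1
        exact hg.2 a
      | add x y hx hy => rw [map_add, map_add, map_add, map_add, hx, hy]
    have h2 := (h1 _).trans (congrArg ((eg T A χ).rTensor U.M) hg.1)
    rw [map_smul] at h2
    exact h2

lemma types_int (τ : T.E) (X : 𝒱.Obj) : DirectSum.IsInternal fun r : ℤ × ℤ => ty T τ X r :=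
  types_internal T τ X

/-- The components of a Tate class on `V × U` for the types and weights. -/
lemma comp_zero {w : ℕ} {x : U.Times V} (hx : U.IsTateT V w x) (τ : T.E) (r : ℤ × ℤ) (s : ℕ × ℤ)
    (h : ¬ (r.1 + r.2 + s.1 = 2 * w ∧ r.1 + s.2 = w)) :
    TensorProduct.map (prj (types_int τ V) r) (pw U τ s)
      (show T.W.H V ⊗[T.W.K] U.M from x) = 0 := by
  classical
  by_cases h1 : r.1 + r.2 + s.1 = 2 * w
  · have h2 : r.1 + s.2 ≠ w := fun h2 => h ⟨h1, h2⟩
    have h3 : Submodule.span T.W.K {x : T.W.H V ⊗[T.W.K] U.M | ∃ p q d p' a b,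
        p + p' = (w : ℤ) ∧ (T.pq τ V).Is p q a ∧ (U.ht τ).Has d p' b ∧ tens T.W.K a b = x} ≤
        LinearMap.ker (TensorProduct.map (prj (types_int τ V) r) (pw U τ s)) := by
      refine Submodule.span_le.2 ?_
      rintro _ ⟨p, q, d, p', a, b, hp, ha, hb, rfl⟩
      show TensorProduct.map (prj (types_int τ V) r) (pw U τ s) (a ⊗ₜ[T.W.K] b) = 0
      rw [TensorProduct.map_tmul, prj_of_mem (types_int τ V) (j := (p, q)) r ha, pw,
        prj_of_mem (weights_internal U τ) (j := (d, p')) s hb]
      by_cases h4 : (p, q) = r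
      · rw [if_pos h4, if_neg, TensorProduct.tmul_zero]
        intro h5
        apply h2
        rw [← h4, ← h5]
        exact hp
      · rw [if_neg h4, TensorProduct.zero_tmul]
    exact h3 (U.tate V w x hx.degree hx.fixed τ)
  · have h3 : Submodule.span T.W.K {x : T.W.H V ⊗[T.W.K] U.M | ∃ i d a b, i + d = 2 * w ∧
        a ∈ T.W.gr V i ∧ U.gr.Has d b ∧ tens T.W.K a b = x} ≤
        LinearMap.ker (TensorProduct.map (prj (types_int τ V) r) (pw U τ s)) := by
      refine Submodule.span_le.2 ?_
      rintro _ ⟨i, d, a, b, hid, ha, hb, rfl⟩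
      show TensorProduct.map (prj (types_int τ V) r) (pw U τ s) (a ⊗ₜ[T.W.K] b) = 0
      rw [TensorProduct.map_tmul]
      by_cases h4 : s.1 = d
      · have h5 : prj (types_int τ V) r a = 0 := by
          have h6 : (T.W.gr V i) ≤ LinearMap.ker (prj (types_int τ V) r) := by
            rw [(T.typing τ V).sum i]
            refine iSup_le fun s' y hy => ?_
            rw [LinearMap.mem_ker, prj_of_mem (types_int τ V) (j := s'.1) r hy, if_neg]
            intro h7
            apply h1
            rw [← h7, s'.2, h4]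
            exact_mod_cast hid
          exact h6 ha
        rw [h5, TensorProduct.zero_tmul]
      · rw [pw_deg U τ hb h4, TensorProduct.tmul_zero]
    exact h3 hx.degree

/-- **The vanishing of the components of Tate classes with nontrivial characters.** -/
theorem cpt_eq_zero {M : ℤ} (hA : IsExt T A M) (hU : U.IsUnrelated M) {w : ℕ}
    {c : U.Times A.X} (hc : U.IsTateT A.X w c) {χ : AddChar A.G ℂ} (hχ : χ ≠ 1) :
    (eg T A χ).rTensor U.M (show T.W.H A.X ⊗[T.W.K] U.M from c) = 0 := by
  classical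
  obtain ⟨τ, hτ⟩ := hA χ hχ
  have hx := isTateT_cpt A U hc χ
  set x : T.W.H A.X ⊗[T.W.K] U.M := (eg T A χ).rTensor U.M
    (show T.W.H A.X ⊗[T.W.K] U.M from c) with hxdef
  refine zero_of_ctrM fun θ => ?_
  refine hU (cofM x) τ ?_ ?_ _ ⟨θ, rfl⟩
  · refine pot_mono hx.fixed fun g hg y hy => ?_
    obtain ⟨φ, rfl⟩ := hy
    have h1 := ctrM_map (φ ∘ₗ (T.act A.X g).symm.toLinearMap) (T.act A.X g).toLinearMap
      (U.act g).toLinearMap x
    have h2 : (φ ∘ₗ (T.act A.X g).symm.toLinearMap) ∘ₗ (T.act A.X g).toLinearMap = φ :=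
      LinearMap.ext fun a => congrArg φ ((T.act A.X g).symm_apply_apply a)
    have hg' : TensorProduct.map (T.act A.X g).toLinearMap (U.act g).toLinearMap x =
      (T.cyc g : T.W.K) ^ w • x := hg
    rw [h2, hg', map_smul, ← ctrM_smul] at h1
    exact ⟨_, h1⟩
  · rintro _ ⟨φ, rfl⟩
    rw [below_iff]
    intro s hs
    have h1 := ctrM_map φ LinearMap.id (pw U τ s) x
    rw [LinearMap.comp_id] at h1
    rw [← h1]
    have h2 : TensorProduct.map LinearMap.id (pw U τ s) x = 0 := by
      refine tens_zero (types_int τ A.X) fun r => ?_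
      have h3 : ∀ z : T.W.H A.X ⊗[T.W.K] U.M, (prj (types_int τ A.X) r).rTensor U.M
          (TensorProduct.map LinearMap.id (pw U τ s) z) =
          TensorProduct.map (prj (types_int τ A.X) r) (pw U τ s) z := by
        intro z
        induction z using TensorProduct.induction_on with
        | zero => rw [map_zero, map_zero, map_zero]
        | tmul a m =>
          rw [TensorProduct.map_tmul, LinearMap.rTensor_tmul, TensorProduct.map_tmul,
            LinearMap.id_apply]
        | add x y hx hy => rw [map_add, map_add, map_add, hx, hy]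
      rw [h3]
      by_cases h4 : r.1 + r.2 + s.1 = 2 * w ∧ r.1 + s.2 = w
      · have h5 : ¬ M ≤ r.1 - r.2 := by
          intro h5
          apply hs
          obtain ⟨h6, h7⟩ := h4
          linarith
        have h6 : ∀ z : T.W.H A.X ⊗[T.W.K] U.M, TensorProduct.map (prj (types_int τ A.X) r)
            (pw U τ s) ((eg T A χ).rTensor U.M z) = 0 := by
          intro z
          induction z using TensorProduct.induction_on with
          | zero => rw [map_zero, map_zero]
          | tmul a m =>
            rw [LinearMap.rTensor_tmul, TensorProduct.map_tmul]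
            have h7 := (mem_above T τ).1 (hτ _ (eg_eigen T A χ a)) r h5
            have h8 : prj (types_int τ A.X) r (eg T A χ a) = 0 := h7
            rw [h8, TensorProduct.zero_tmul]
          | add x y hx hy => rw [map_add, map_add, hx, hy, add_zero]
        exact h6 _
      · exact comp_zero U hx τ r s h4
    rw [h2, map_zero]

/-! ### Sums of products -/

variable {A U}

/-- **Tate classes which are sums of products with algebraic first factor.** -/
theorem sumT {w : ℕ} {c : U.Times V} (hc : U.IsTateT V w c)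
    (h : (show T.W.H V ⊗[T.W.K] U.M from c) ∈ Submodule.span T.W.K
      {x : T.W.H V ⊗[T.W.K] U.M | ∃ a b, IsAlg T a ∧ a ⊗ₜ[T.W.K] b = x}) :
    Comb (fun x => ∃ j l a b, j + l = w ∧ IsClass T (X := V) j a ∧
      U.IsTate l b ∧ tens T.W.K a b = x) c := by
  classical
  obtain ⟨C⟩ := exists_crd T V
  change T.W.H V ⊗[T.W.K] U.M at c
  have h1' : c = ∑ t, C.a t ⊗ₜ[T.W.K] ctrM (C.θ t) c := by
    clear hc
    change c ∈ _ at h
    induction h using Submodule.span_induction with
    | mem x hx =>
      obtain ⟨y, b, hy, rfl⟩ := hx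
      conv_lhs => rw [C.dual y hy, TensorProduct.sum_tmul]
      refine Finset.sum_congr rfl fun t _ => ?_
      rw [ctrM_tmul, TensorProduct.tmul_smul, TensorProduct.smul_tmul']
    | zero =>
      rw [Finset.sum_eq_zero fun t _ => by rw [map_zero, TensorProduct.tmul_zero]]
    | add x y _ _ hx hy =>
      conv_lhs => rw [hx, hy, ← Finset.sum_add_distrib]
      refine Finset.sum_congr rfl fun t _ => ?_
      rw [map_add, TensorProduct.tmul_add]
    | smul z x _ hx =>
      conv_lhs => rw [hx, Finset.smul_sum]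
      refine Finset.sum_congr rfl fun t _ => ?_
      rw [map_smul, TensorProduct.tmul_smul]
  obtain ⟨b, hb⟩ : ∃ b : Fin C.r → U.M, ∀ t, b t = ctrM (C.θ t) c := ⟨_, fun _ => rfl⟩
  have h1 : c = ∑ t, C.a t ⊗ₜ[T.W.K] b t := by
    conv_lhs => rw [h1']
    exact Finset.sum_congr rfl fun t _ => by rw [hb]
  clear h1'
  have hdeg : ∀ t d, 2 * C.j t + d ≠ 2 * w → prj U.graded d (b t) = 0 := by
    intro t d hd
    have h2 : TensorProduct.map (proj (T.W.isInternal V) (2 * C.j t)) (prj U.graded d) c = 0 := by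
      have h3 : Submodule.span T.W.K {x : T.W.H V ⊗[T.W.K] U.M | ∃ i d a b, i + d = 2 * w ∧
          a ∈ T.W.gr V i ∧ U.gr.Has d b ∧ tens T.W.K a b = x} ≤
          LinearMap.ker (TensorProduct.map (proj (T.W.isInternal V) (2 * C.j t))
            (prj U.graded d)) := by
        refine Submodule.span_le.2 ?_
        rintro _ ⟨i, d', a, b', hid, ha, hb', rfl⟩
        show TensorProduct.map (proj (T.W.isInternal V) (2 * C.j t)) (prj U.graded d)
          (a ⊗ₜ[T.W.K] b') = 0
        rw [TensorProduct.map_tmul]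
        by_cases h4 : i = 2 * C.j t
        · rw [prj_of_mem U.graded (j := d') d hb', if_neg (by omega), TensorProduct.tmul_zero]
        · rw [proj_ne _ ha h4, TensorProduct.zero_tmul]
      exact h3 hc.degree
    rw [h1, map_sum] at h2
    have h3 : ∀ t', TensorProduct.map (proj (T.W.isInternal V) (2 * C.j t)) (prj U.graded d)
        (C.a t' ⊗ₜ[T.W.K] b t') =
        C.a t' ⊗ₜ[T.W.K] (if C.j t' = C.j t then prj U.graded d (b t') else 0) := by
      intro t'
      rw [TensorProduct.map_tmul]
      by_cases h4 : C.j t' = C.j t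
      · have h5 : C.a t' ∈ T.W.gr V (2 * C.j t) := h4 ▸ class_mem (C.cls t')
        rw [if_pos h4, proj_same _ h5]
      · rw [if_neg h4, proj_ne _ (class_mem (C.cls t')) (by omega), TensorProduct.zero_tmul,
          TensorProduct.tmul_zero]
    rw [Finset.sum_congr rfl fun t' _ => h3 t'] at h2
    have h4 := zero_of_indep C.indep h2 t
    rw [if_pos rfl] at h4
    exact h4
  have hmem : ∀ t, C.j t ≤ w → U.gr.Has (2 * (w - C.j t)) (b t) := fun t ht =>
    mem_of_prj U.graded fun d hd => hdeg t d (by omega)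
  have hzero : ∀ t, ¬ C.j t ≤ w → b t = 0 := fun t ht =>
    prj_zero U.graded fun d => hdeg t d (by omega)
  have hact : Pot fun g => ∀ t, (T.cyc g : T.W.K) ^ C.j t • U.act g (b t) =
      (T.cyc g : T.W.K) ^ w • b t := by
    refine pot_mono (pot_and hc.fixed (pot_all fun t => class_twisted (C.cls t)))
      fun g hg t => ?_
    obtain ⟨hg1, hg2⟩ := hg
    change TensorProduct.map (T.act V g).toLinearMap (U.act g).toLinearMap c =
      (T.cyc g : T.W.K) ^ w • c at hg1
    have h2 : ∑ t, C.a t ⊗ₜ[T.W.K] ((T.cyc g : T.W.K) ^ C.j t • U.act g (b t) -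
        (T.cyc g : T.W.K) ^ w • b t) = 0 := by
      have h3 : ∀ t, C.a t ⊗ₜ[T.W.K] ((T.cyc g : T.W.K) ^ C.j t • U.act g (b t) -
          (T.cyc g : T.W.K) ^ w • b t) =
            TensorProduct.map (T.act V g).toLinearMap (U.act g).toLinearMap
              (C.a t ⊗ₜ[T.W.K] b t) - (T.cyc g : T.W.K) ^ w • (C.a t ⊗ₜ[T.W.K] b t) := by
        intro t
        rw [TensorProduct.map_tmul, TensorProduct.tmul_sub, TensorProduct.tmul_smul,
          TensorProduct.tmul_smul]
        congr 1
        have h4 : (T.act V g).toLinearMap (C.a t) = (T.cyc g : T.W.K) ^ C.j t • C.a t := hg2 t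
        rw [h4, TensorProduct.smul_tmul']
        rfl
      rw [Finset.sum_congr rfl fun t _ => h3 t, Finset.sum_sub_distrib, ← map_sum,
        ← Finset.smul_sum, ← h1, hg1, sub_self]
    exact sub_eq_zero.1 (zero_of_indep C.indep h2 t)
  show c ∈ Submodule.span T.W.K _
  rw [h1]
  refine Submodule.sum_mem _ fun t _ => ?_
  by_cases ht : C.j t ≤ w
  · refine Submodule.subset_span ⟨C.j t, w - C.j t, C.a t, b t, Nat.add_sub_cancel' ht, C.cls t,
      ⟨hmem t ht, pot_mono hact fun g hg => ?_⟩, rfl⟩
    have h2 : (T.cyc g : T.W.K) ^ C.j t ≠ 0 := pow_ne_zero _ (Units.ne_zero _)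
    refine (smul_right_injective _ h2) ?_
    show (T.cyc g : T.W.K) ^ C.j t • U.act g (b t) = (T.cyc g : T.W.K) ^ C.j t •
      ((T.cyc g : T.W.K) ^ (w - C.j t) • b t)
    rw [hg t, smul_smul, ← pow_add, Nat.add_sub_cancel' ht]
  · rw [hzero t ht, TensorProduct.tmul_zero]
    exact Submodule.zero_mem _

end Pool.Agent.U222.TS
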