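import Pool.Agent.U222.TT.Gen

/-!
# Tensor products with automorphisms and types
-/

set_option autoImplicit false

open TensorProduct

namespace Pool.Agent.U222.TS

open Pool.Agent.U222.TT

/-- The tensor product. -/
def Tn (K A M : Type) [Field K] [Ring A] [Algebra K A] [AddCommGroup M] [Module K M] : Type :=
  A ⊗[K] M

/-- Subspaces of `M` for all natural numbers. -/
def Fam1 (K M : Type) [Field K] [AddCommGroup M] [Module K M] : Type := ℕ → Submodule K M

/-- Subspaces of `M` for all natural numbers `d` and integers `p`. -/
def Fam2 (K M : Type) [Field K] [AddCommGroup M] [Module K M] : Type := ℕ → ℤ → Submodule K M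

/-- The automorphisms of the vector space `M` given by the elements of `Γ`. -/
def Acts (K M Γ : Type) [Field K] [AddCommGroup M] [Module K M] : Type := Γ → (M ≃ₗ[K] M)

section

variable {K A M : Type} [Field K] [Ring A] [Algebra K A] [AddCommGroup M] [Module K M]
  {Γ : Type} [Group Γ]

/-- The element `c` belongs to the subspace with index `j`. -/
def Fam1.Has (F : Fam1 K M) (j : ℕ) (c : M) : Prop := c ∈ F j

/-- The element `c` belongs to the subspace with the indices `d` and `p`. -/
def Fam2.Has (h : Fam2 K M) (d : ℕ) (p : ℤ) (c : M) : Prop := c ∈ h d p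

/-- Subspaces of the tensor product for all natural numbers. -/
def FamT (K A M : Type) [Field K] [Ring A] [Algebra K A] [AddCommGroup M] [Module K M] : Type :=
  ℕ → Submodule K (A ⊗[K] M)

/-- The element `c` belongs to the subspace with index `j`. -/
def FamT.Has (F : FamT K A M) (j : ℕ) (c : Tn K A M) : Prop := (show A ⊗[K] M from c) ∈ F j

/-- The tensor `a ⊗ c`. -/
def tens (K : Type) {A M : Type} [Field K] [Ring A] [Algebra K A] [AddCommGroup M] [Module K M]
    (a : A) (c : M) : Tn K A M := a ⊗ₜ[K] c

/-- The product `a c` of an element `a` of `A` and a tensor `c`. -/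
def lmul (a : A) (c : Tn K A M) : Tn K A M :=
  (LinearMap.mulLeft K a).rTensor M (show A ⊗[K] M from c)

/-- The contraction of a tensor with the linear form `f` on `A`. -/
noncomputable def contract (f : A →ₗ[K] K) (c : Tn K A M) : M :=
  TensorProduct.lid K M (f.rTensor M (show A ⊗[K] M from c))

/-- The tensor `c` is a linear combination of tensors with the property `P`. -/
def Comb (P : Tn K A M → Prop) (c : Tn K A M) : Prop :=
  (show A ⊗[K] M from c) ∈ Submodule.span K {x : A ⊗[K] M | P x}

/-- The tensor `c` is of degree `n`. -/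
def DegT (gA : ℕ → Submodule K A) (gM : Fam1 K M) (n : ℕ) (c : Tn K A M) : Prop :=
  Comb (fun x => ∃ i d a b, i + d = n ∧ a ∈ gA i ∧ gM.Has d b ∧ tens K a b = x) c

/-- All elements `g` of a subgroup of finite index multiply the tensor `c` by `cyc g ^ j`. -/
def TwistedT (ρ : Γ → (A ≃ₐ[K] A)) (σ : Acts K M Γ) (cyc : Γ →* Kˣ) (j : ℕ) (c : Tn K A M) :
    Prop :=
  Pot fun g => TensorProduct.map (ρ g).toLinearMap (σ g).toLinearMap (show A ⊗[K] M from c) =
    (cyc g : K) ^ j • (show A ⊗[K] M from c)

/-- All elements `g` of a subgroup of finite index multiply the element `c` by `cyc g ^ j`. -/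
def TwistedM (σ : Acts K M Γ) (cyc : Γ →* Kˣ) (j : ℕ) (c : M) : Prop :=
  Pot fun g => σ g c = (cyc g : K) ^ j • c

/-- The tensor `c` is of weight `n`: a sum of tensors `a ⊗ b` with `a` of type `(p, q)` and `b` of
weight `n - p`. -/
def WeightT (t : Tys K A) (h : Fam2 K M) (n : ℤ) (c : Tn K A M) : Prop :=
  Comb (fun x => ∃ p q d p' a b, p + p' = n ∧ t.Is p q a ∧ h.Has d p' b ∧ tens K a b = x) c

/-- The space `M` is the direct sum of its subspaces `gM d`. -/
def IsGraded (gM : Fam1 K M) : Prop := DirectSum.IsInternal fun d : ℕ => gM d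

/-- The space `M` is the direct sum of the spaces `h d p`, and the elements of degree `d` are the sums of
elements of the spaces `h d p`. -/
structure IsWeights (gM : Fam1 K M) (h : Fam2 K M) : Prop where
  sum : ∀ d, gM d = ⨆ p, h d p
  indep : iSupIndep fun r : ℕ × ℤ => h r.1 r.2
  top : ⨆ r : ℕ × ℤ, h r.1 r.2 = ⊤

/-- The element `c` is a sum of elements of degree `d` and weight `p` with `2 p - d ≤ -m`. -/
def Fam2.Below (h : Fam2 K M) (m : ℤ) (c : M) : Prop :=
  c ∈ ⨆ r : {r : ℕ × ℤ // 2 * r.2 - r.1 ≤ -m}, h r.1.1 r.1.2

/-- The subspaces of `M`. -/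
def SbM (K M : Type) [Field K] [AddCommGroup M] [Module K M] : Type := Submodule K M

/-- The element `c` belongs to the subspace `U`. -/
def SbM.Has (U : SbM K M) (c : M) : Prop := c ∈ (show Submodule K M from U)

/-- The subspace `U` is stable under all elements of a subgroup of finite index. -/
def StableM (σ : Acts K M Γ) (U : SbM K M) : Prop := Pot fun g => ∀ c, U.Has c → U.Has (σ g c)

/-- The tensors `a ⊗ c`, for `a` with the property `P i` and `c` in the space with index `j`, are in
the space with index `i + j`. -/
def ExtStable (P : ℕ → A → Prop) (F : Fam1 K M) (F' : FamT K A M) : Prop :=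
  ∀ i j a c, P i a → F.Has j c → F'.Has (i + j) (tens K a c)

/-- The products of the elements with the property `P i` and of the elements of the space with index
`j` are in the space with index `i + j`. -/
def MulStable (P : ℕ → A → Prop) (F' : FamT K A M) : Prop :=
  ∀ i j a c, P i a → F'.Has j c → F'.Has (i + j) (lmul a c)

/-- The contractions with `f` of the elements of the space with index `n + j` are in the space with
index `j`. -/
def PushStable (f : A →ₗ[K] K) (n : ℕ) (F' : FamT K A M) (F : Fam1 K M) : Prop :=
  ∀ j c, F'.Has (n + j) c → F.Has j (contract f c)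

end

end Pool.Agent.U222.TS
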