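import Pool.Agent.U222.TT.Defs
import Pool.Agent.U222.TS.Gen

/-!
# The Tate conjecture for products of coverings with smooth varieties: definitions
-/

set_option autoImplicit false

open CategoryTheory AlgebraicGeometry

universe u

namespace Pool.Agent.U222.TS

open Pool.Agent.H914 Pool.Agent.H914.VarClass Pool.Agent.H914.VarClass.Obj Pool.Agent.U222.HC
  Pool.Agent.U222.TT

variable {k : Type u} [Field k] {𝒱 : VarClass k} {ops : CycleOps 𝒱}

/-- The cohomology `M = H(U)` of a smooth variety `U` over `k`, not necessarily proper, with its
grading, the action of the Galois group and, for each embedding `τ`, the Hodge-Tate weights: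
`ht τ d p` is the part of weight `p` of `H^d(U)`. Moreover `cyc j` is the space of the linear
combinations of classes of algebraic cycles of codimension `j` on `U`, and `cycT V j` is the space of
the linear combinations of classes of algebraic cycles of codimension `j` on `V × U`, for the smooth
projective varieties `V`, in `H(V × U) = H(V) ⊗ M`. The exterior products of cycles on `V` and on `U` and
the products of cycles on `V` and on `V × U` are cycles on `V × U`, and the push-forwards of
cycles on `V × U` are cycles on `U`. The classes in `H^(2j)(V × U)` on which a subgroup of finite index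
acts by `cyc ^ j` are of Hodge-Tate weight `j`. -/
structure AnyVar (T : TateTheory ops) where
  /-- the cohomology of `U` -/
  M : Type
  [grp : AddCommGroup M]
  [mod : Module T.W.K M]
  /-- the grading -/
  gr : Fam1 T.W.K M
  /-- the action -/
  act : Acts T.W.K M T.Γ
  /-- the Hodge-Tate weights -/
  ht : T.E → Fam2 T.W.K M
  graded : IsGraded gr
  weights : ∀ τ, IsWeights gr (ht τ)
  /-- the combinations of the classes of the cycles on `U` -/
  cyc : Fam1 T.W.K M
  /-- the combinations of the classes of the cycles on `V × U` -/
  cycT : ∀ V : 𝒱.Obj, FamT T.W.K (T.W.H V) M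
  ext : ∀ V : 𝒱.Obj, ExtStable (IsClass T) cyc (cycT V)
  mul : ∀ V : 𝒱.Obj, MulStable (IsClass T) (cycT V)
  push : ∀ V : 𝒱.Obj, PushStable (T.W.tr V) V.dim (cycT V) cyc
  tate : ∀ (V : 𝒱.Obj) j c, DegT (T.W.gr V) gr (2 * j) c → TwistedT (T.act V) act T.cyc j c →
    ∀ τ, WeightT (T.pq τ V) (ht τ) j c

attribute [instance] AnyVar.grp AnyVar.mod

variable {T : TateTheory ops} (V : 𝒱.Obj) (U : AnyVar T)

/-- The cohomology of `V × U`. -/
def AnyVar.Times : Type := Tn T.W.K (T.W.H V) U.M

/-- The class `c` is a Tate class of degree `2 j` on `U`. -/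
structure AnyVar.IsTate (j : ℕ) (c : U.M) : Prop where
  degree : U.gr.Has (2 * j) c
  fixed : TwistedM U.act T.cyc j c

/-- The class `c` is a Tate class of degree `2 j` on `V × U`. -/
structure AnyVar.IsTateT (j : ℕ) (c : U.Times V) : Prop where
  degree : DegT (T.W.gr V) U.gr (2 * j) c
  fixed : TwistedT (T.act V) U.act T.cyc j c

/-- The Tate conjecture for `U`: all Tate classes on `U` are linear combinations of classes of
algebraic cycles. -/
def AnyVar.Tate : Prop := ∀ j c, U.IsTate j c → U.cyc.Has j c

/-- The Tate conjecture for `V × U`: all Tate classes on `V × U` are linear combinations of classes of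
algebraic cycles. -/
def AnyVar.TateTimes : Prop := ∀ j c, U.IsTateT V j c → (U.cycT V).Has j c

/-- All Tate classes on `V × U` are linear combinations of products of classes of algebraic cycles on
`V` and Tate classes on `U`. -/
def AnyVar.AreSums : Prop :=
  ∀ w c, U.IsTateT V w c → Comb (fun x => ∃ j l a b, j + l = w ∧ IsClass T (X := V) j a ∧
    U.IsTate l b ∧ tens T.W.K a b = x) c

/-- There is no nonzero subspace of `H(U)`, stable under a subgroup of finite index, which for some
embedding `τ` is contained in the sum of the parts of degree `d` and Hodge-Tate weight `p` with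
`2 p - d ≤ -M`. -/
def AnyVar.IsUnrelated (M : ℤ) : Prop :=
  ∀ (S : SbM T.W.K U.M) τ, StableM U.act S → (∀ x, S.Has x → (U.ht τ).Below M x) →
    ∀ x, S.Has x → x = 0

/-- The parts of degree `d` and Hodge-Tate weight `p` of `H(U)` with `2 p - d ≤ -M` are zero. -/
def AnyVar.IsSmall (M : ℤ) : Prop :=
  ∀ τ d p x, (U.ht τ).Has d p x → 2 * p - d ≤ -M → x = 0

end Pool.Agent.U222.TS
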