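import Pool.Agent.U222.TS.Core

/-!
# The Tate conjecture for products of coverings with smooth varieties
-/

set_option autoImplicit false

open CategoryTheory AlgebraicGeometry TensorProduct

universe u

namespace Pool.Agent.U222.TS

open Pool.Agent.H914 Pool.Agent.H914.VarClass Pool.Agent.H914.VarClass.Obj Pool.Agent.U222.HC
  Pool.Agent.U222.TT
open Pool.Agent.U222.HC.I (pmap pmap_id pmap_comp gprod c1 c2 c_mul nest nest_X cmp eq_one_of_cmp)

variable {k : Type u} [Field k] {𝒱 : VarClass k} {ops : CycleOps 𝒱} {T : TateTheory ops}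
  (A : GVar 𝒱) {V : 𝒱.Obj} (U : AnyVar T)

/-- A class with trivial components for the nontrivial characters. -/
lemma mem_of_invT (hA : InvAlg T A) {c : T.W.H A.X ⊗[T.W.K] U.M}
    (hc : ∀ χ : AddChar A.G ℂ, χ ≠ 1 → (eg T A χ).rTensor U.M c = 0) :
    c ∈ Submodule.span T.W.K {x : T.W.H A.X ⊗[T.W.K] U.M | ∃ a b, IsAlg T a ∧
      a ⊗ₜ[T.W.K] b = x} := by
  classical
  have h0 : ∀ c : T.W.H A.X ⊗[T.W.K] U.M,
      ∑ χ : AddChar A.G ℂ, (eg T A χ).rTensor U.M c = c := by
    intro c
    induction c using TensorProduct.induction_on with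
    | zero => exact Finset.sum_eq_zero fun χ _ => map_zero _
    | tmul a m =>
      rw [Finset.sum_congr rfl fun χ _ => LinearMap.rTensor_tmul _ _ _ _,
        ← TensorProduct.sum_tmul, eg_sum]
    | add x y hx hy =>
      rw [Finset.sum_congr rfl fun χ _ => map_add _ x y, Finset.sum_add_distrib, hx, hy]
  have h1 : (eg T A 1).rTensor U.M c = c := by
    conv_rhs => rw [← h0 c]
    exact (Finset.sum_eq_single_of_mem _ (Finset.mem_univ _) fun χ _ hχ => hc χ hχ).symm
  rw [← h1]
  clear h1 hc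
  induction c using TensorProduct.induction_on with
  | zero => rw [map_zero]; exact Submodule.zero_mem _
  | tmul a m =>
    rw [LinearMap.rTensor_tmul]
    exact Submodule.subset_span ⟨_, m, hA a, rfl⟩
  | add x y hx hy => rw [map_add]; exact Submodule.add_mem _ hx hy

/-- Small varieties are unrelated. -/
theorem unrelated_of_small {M : ℤ} (h : U.IsSmall M) : U.IsUnrelated M := by
  intro S τ _ hb x hx
  have h1 : (⨆ r : {r : ℕ × ℤ // 2 * r.2 - r.1 ≤ -M}, U.ht τ r.1.1 r.1.2) ≤ ⊥ := by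
    refine iSup_le fun r y hy => ?_
    rw [Submodule.mem_bot]
    exact h τ _ _ y hy r.2
  exact (Submodule.mem_bot _).1 (h1 (hb x hx))

/-- The Tate conjecture for `V × U` implies it for `U`. -/
lemma tate_of_times (h : U.TateTimes V) : U.Tate := by
  intro j c hc
  obtain ⟨y, hy, hdeg⟩ := T.point V
  have h2 : U.IsTateT V j (tens T.W.K 1 c) := by
    constructor
    · exact Submodule.subset_span ⟨0, 2 * j, 1, c, zero_add _, by
        rw [T.W.gr_zero]; exact Submodule.mem_span_singleton_self _, hc.degree, rfl⟩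
    · refine pot_mono hc.fixed fun g hg => ?_
      show TensorProduct.map (T.act V g).toLinearMap (U.act g).toLinearMap
        ((1 : T.W.H V) ⊗ₜ[T.W.K] c) = (T.cyc g : T.W.K) ^ j • ((1 : T.W.H V) ⊗ₜ[T.W.K] c)
      rw [TensorProduct.map_tmul, ← TensorProduct.tmul_smul]
      have h3 : (T.act V g).toLinearMap (1 : T.W.H V) = 1 := map_one (T.act V g)
      have h4 : (U.act g).toLinearMap c = (T.cyc g : T.W.K) ^ j • c := hg
      rw [h3, h4]
  have h3 := U.mul V V.dim j (T.W.cl V y) (tens T.W.K 1 c) ⟨y, hy, rfl⟩ (h j _ h2)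
  have h4 := U.push V j _ h3
  have h5 : contract (T.W.tr V) (lmul (T.W.cl V y) (tens T.W.K (1 : T.W.H V) c)) =
      (V.V.degCycle y : T.W.K) • c := by
    have h6 : lmul (T.W.cl V y) (tens T.W.K (1 : T.W.H V) c) =
        (T.W.cl V y * 1) ⊗ₜ[T.W.K] c := LinearMap.rTensor_tmul _ _ _ _
    have h7 : ∀ a : T.W.H V, contract (T.W.tr V) (show Tn T.W.K (T.W.H V) U.M from
        a ⊗ₜ[T.W.K] c) = T.W.tr V a • c := fun a => ctrM_tmul (T.W.tr V) a c
    rw [h6, h7, mul_one, T.W.tr_cl hy]
  rw [h5] at h4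
  have h6 : (V.V.degCycle y : T.W.K) ≠ 0 := by exact_mod_cast hdeg
  exact (Submodule.smul_mem_iff (U.cyc j) h6).1 h4

/-- Sums of products of algebraic and Tate classes. -/
lemma times_of_sums (hU : U.Tate) (h : U.AreSums V) : U.TateTimes V := by
  intro w c hc
  have h1 := h w c hc
  refine (Submodule.span_le.2 ?_ : Submodule.span T.W.K {x : T.W.H V ⊗[T.W.K] U.M | ∃ j l a b,
    j + l = w ∧ IsClass T (X := V) j a ∧ U.IsTate l b ∧ tens T.W.K a b = x} ≤ U.cycT V w) h1
  rintro _ ⟨j, l, a, b, hjl, ha, hb, rfl⟩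
  have h2 := U.ext V j l a b ha (hU l b hb)
  rw [hjl] at h2
  exact h2

theorem main_int {n : ℕ} (A : Fin (n + 1) → GVar 𝒱) (m : T.E → ∀ i, AddChar (A i).G ℂ → ℤ)
    (M : ℤ) (h : Sys T A m M) (hU : U.IsSmall M ∨ U.IsUnrelated M) :
    U.AreSums (product n A) ∧ (U.TateTimes (product n A) ↔ U.Tate) := by
  classical
  have hext := isExt_nest T n A m h
  have hinv := invAlg_nest T n A h.inv
  have hU' : U.IsUnrelated M := hU.elim (fun h => unrelated_of_small U h) id
  have key : U.AreSums (nest n A).X ∧ (U.TateTimes (nest n A).X ↔ U.Tate) := by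
    have h1 : U.AreSums (nest n A).X := fun w c hc =>
      sumT hc (mem_of_invT (nest n A) U hinv fun χ hχ =>
        cpt_eq_zero (nest n A) U hext hU' hc hχ)
    exact ⟨h1, tate_of_times U, fun h2 => times_of_sums U h2 h1⟩
  rwa [nest_X] at key

/-- **The main theorem.** -/
theorem main {n : ℕ} (A : Fam 𝒱 n) (m : T.E → ∀ i, (A i).Ch → ℤ) (M : ℤ)
    (h : IsSystem T A m) (hE : IsExtreme A m M) (hU : U.IsSmall M ∨ U.IsUnrelated M) :
    U.AreSums (product n A) ∧ (U.TateTimes (product n A) ↔ U.Tate) := by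
  refine main_int U A m M ⟨fun i => invAlg_of T (h.invariants i), fun τ i χ x hχ hx => ?_,
    fun I hI χ hχ => ?_⟩ hU
  · exact h.types τ i χ x (fun h => hχ ((isTrivial_iff χ).1 h)) hx
  · exact hE I hI χ fun i hi h1 => hχ i hi ((isTrivial_iff (χ i)).1 h1)

end Pool.Agent.U222.TS
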