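import Pool.Agent.U222.TS.Defs
import Pool.Agent.U222.TT.Fin

/-!
# Linear algebra of tensor products
-/

set_option autoImplicit false

open TensorProduct

namespace Pool.Agent.U222.TS

open Pool.Agent.U222.TT

section prj

variable {K M ι : Type} [Field K] [AddCommGroup M] [Module K M] [DecidableEq ι]
  {F : ι → Submodule K M} (h : DirectSum.IsInternal F)

/-- The projection to a summand. -/
noncomputable def prj (i : ι) : M →ₗ[K] M :=
  (F i).subtype ∘ₗ (DirectSum.component K ι (fun i => F i) i) ∘ₗ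
    (LinearEquiv.ofBijective (DirectSum.coeLinearMap F) h).symm.toLinearMap

include h

lemma prj_mem (i : ι) (x : M) : prj h i x ∈ F i := by
  rw [prj, LinearMap.comp_apply]
  exact Submodule.coe_mem _

lemma prj_of_mem {j : ι} (i : ι) {x : M} (hx : x ∈ F j) : prj h i x = if j = i then x else 0 := by
  rw [prj, LinearMap.comp_apply, LinearMap.comp_apply, LinearEquiv.coe_coe]
  have h1 : (LinearEquiv.ofBijective (DirectSum.coeLinearMap F) h).symm x =
      DirectSum.lof K ι (fun i => F i) j ⟨x, hx⟩ := by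
    rw [LinearEquiv.symm_apply_eq, LinearEquiv.ofBijective_apply, DirectSum.coeLinearMap_lof]
  rw [h1]
  split_ifs with h2
  · subst h2
    rw [DirectSum.component.lof_self]
    rfl
  · rw [DirectSum.component.of, dif_neg h2, map_zero]

lemma prj_same {i : ι} {x : M} (hx : x ∈ F i) : prj h i x = x := by
  rw [prj_of_mem h i hx, if_pos rfl]

lemma prj_ind {P : M → Prop} (h0 : P 0) (ha : ∀ x y, P x → P y → P (x + y))
    (he : ∀ i x, x ∈ F i → P x) (x : M) : P x := by
  have hx : x ∈ ⨆ i, F i := by
    rw [h.submodule_iSup_eq_top]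
    exact Submodule.mem_top
  induction hx using Submodule.iSup_induction' with
  | mem i x hx => exact he i x hx
  | zero => exact h0
  | add x y _ _ hx hy => exact ha x y hx hy

lemma prj_sum (x : M) : ∃ S : Finset ι, (∀ i, i ∉ S → prj h i x = 0) ∧
    x = ∑ i ∈ S, prj h i x := by
  induction x using prj_ind h with
  | h0 => exact ⟨∅, fun i _ => map_zero _, rfl⟩
  | ha x y hx hy =>
    obtain ⟨S, hS, hx⟩ := hx
    obtain ⟨S', hS', hy⟩ := hy
    refine ⟨S ∪ S', fun i hi => ?_, ?_⟩
    · rw [Finset.mem_union, not_or] at hi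
      rw [map_add, hS i hi.1, hS' i hi.2, add_zero]
    · have h1 : ∑ i ∈ S ∪ S', prj h i x = x := by
        conv_rhs => rw [hx]
        exact (Finset.sum_subset Finset.subset_union_left fun i _ hi => hS i hi).symm
      have h2 : ∑ i ∈ S ∪ S', prj h i y = y := by
        conv_rhs => rw [hy]
        exact (Finset.sum_subset Finset.subset_union_right fun i _ hi => hS' i hi).symm
      rw [Finset.sum_congr rfl fun i _ => map_add (prj h i) x y, Finset.sum_add_distrib, h1, h2]
  | he i x hx =>
    refine ⟨{i}, fun j hj => ?_, ?_⟩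
    · rw [prj_of_mem h j hx, if_neg]
      rintro rfl
      exact hj (Finset.mem_singleton_self _)
    · rw [Finset.sum_singleton, prj_same h hx]

lemma prj_zero {x : M} (hx : ∀ i, prj h i x = 0) : x = 0 := by
  obtain ⟨S, -, h1⟩ := prj_sum h x
  rw [h1]
  exact Finset.sum_eq_zero fun i _ => hx i

lemma mem_of_prj {x : M} {i : ι} (hx : ∀ j, j ≠ i → prj h j x = 0) : x ∈ F i := by
  obtain ⟨S, h0, h1⟩ := prj_sum h x
  have h2 : x = prj h i x := by
    conv_lhs => rw [h1]
    by_cases hs : i ∈ S
    · exact Finset.sum_eq_single_of_mem i hs fun j _ hj => hx j hj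
    · rw [h0 i hs]
      exact Finset.sum_eq_zero fun j hj => hx j fun h3 => hs (h3 ▸ hj)
  rw [h2]
  exact prj_mem h i x

/-- A tensor is zero if its components are zero. -/
lemma tens_zero {N : Type} [AddCommGroup N] [Module K N] {y : M ⊗[K] N}
    (hy : ∀ i, (prj h i).rTensor N y = 0) : y = 0 := by
  have h1 : ∀ y : M ⊗[K] N, ∃ S : Finset ι, ∀ S', S ⊆ S' → y = ∑ i ∈ S', (prj h i).rTensor N y := by
    intro y
    induction y using TensorProduct.induction_on with
    | zero =>
      refine ⟨∅, fun S' _ => ?_⟩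
      rw [Finset.sum_eq_zero fun i _ => map_zero _]
    | tmul a b =>
      obtain ⟨S, h0, h1⟩ := prj_sum h a
      refine ⟨S, fun S' hS' => ?_⟩
      have h2 : a = ∑ i ∈ S', prj h i a := by
        conv_lhs => rw [h1]
        exact Finset.sum_subset hS' fun i _ hi => h0 i hi
      conv_lhs => rw [h2, TensorProduct.sum_tmul]
      exact Finset.sum_congr rfl fun i _ => (LinearMap.rTensor_tmul _ _ _ _).symm
    | add x y hx hy =>
      obtain ⟨S, hS⟩ := hx
      obtain ⟨S', hS'⟩ := hy
      refine ⟨S ∪ S', fun S'' h'' => ?_⟩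
      have e1 := hS S'' (Finset.subset_union_left.trans h'')
      have e2 := hS' S'' (Finset.subset_union_right.trans h'')
      conv_lhs => rw [e1, e2, ← Finset.sum_add_distrib]
      exact Finset.sum_congr rfl fun i _ => (map_add _ _ _).symm
  obtain ⟨S, hS⟩ := h1 y
  rw [hS S subset_rfl]
  exact Finset.sum_eq_zero fun i _ => hy i

end prj

section ctr

variable {K A M : Type} [Field K] [AddCommGroup A] [Module K A] [AddCommGroup M] [Module K M]

/-- The contraction. -/
noncomputable def ctrM (f : A →ₗ[K] K) : A ⊗[K] M →ₗ[K] M :=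
  (TensorProduct.lid K M).toLinearMap ∘ₗ f.rTensor M

lemma ctrM_tmul (f : A →ₗ[K] K) (a : A) (m : M) : ctrM f (a ⊗ₜ[K] m) = f a • m := by
  rw [ctrM, LinearMap.comp_apply, LinearMap.rTensor_tmul, LinearEquiv.coe_coe,
    TensorProduct.lid_tmul]

lemma ctrM_map (f : A →ₗ[K] K) (u : A →ₗ[K] A) (v : M →ₗ[K] M) (x : A ⊗[K] M) :
    ctrM f (TensorProduct.map u v x) = v (ctrM (f ∘ₗ u) x) := by
  induction x using TensorProduct.induction_on with
  | zero => rw [map_zero, map_zero, map_zero, map_zero]
  | tmul a m => rw [TensorProduct.map_tmul, ctrM_tmul, ctrM_tmul, map_smul, LinearMap.comp_apply]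
  | add x y hx hy => rw [map_add, map_add, map_add, map_add, hx, hy]

lemma ctrM_add (f g : A →ₗ[K] K) (x : A ⊗[K] M) : ctrM (f + g) x = ctrM f x + ctrM g x := by
  induction x using TensorProduct.induction_on with
  | zero => rw [map_zero, map_zero, map_zero, add_zero]
  | tmul a m => rw [ctrM_tmul, ctrM_tmul, ctrM_tmul, LinearMap.add_apply, add_smul]
  | add x y hx hy =>
    rw [map_add, map_add, map_add, hx, hy]
    abel

lemma ctrM_smul (z : K) (f : A →ₗ[K] K) (x : A ⊗[K] M) : ctrM (z • f) x = z • ctrM f x := by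
  induction x using TensorProduct.induction_on with
  | zero => rw [map_zero, map_zero, smul_zero]
  | tmul a m => rw [ctrM_tmul, ctrM_tmul, LinearMap.smul_apply, smul_assoc]
  | add x y hx hy => rw [map_add, map_add, hx, hy, smul_add]

lemma ctrM_zero (x : A ⊗[K] M) : ctrM (0 : A →ₗ[K] K) x = 0 := by
  have h := ctrM_smul 0 (0 : A →ₗ[K] K) x
  rw [zero_smul, zero_smul] at h
  exact h

/-- The coefficients of a tensor. -/
noncomputable def cofM (x : A ⊗[K] M) : Submodule K M where
  carrier := {y | ∃ f, ctrM f x = y}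
  add_mem' := by
    rintro _ _ ⟨f, rfl⟩ ⟨g, rfl⟩
    exact ⟨f + g, ctrM_add f g x⟩
  zero_mem' := ⟨0, ctrM_zero x⟩
  smul_mem' := by
    rintro z _ ⟨f, rfl⟩
    exact ⟨z • f, ctrM_smul z f x⟩

lemma zero_of_ctrM [Module.Finite K A] {x : A ⊗[K] M} (h : ∀ f, ctrM f x = 0) : x = 0 := by
  let b := Module.finBasis K A
  have h1 : x = ∑ i, b i ⊗ₜ[K] ctrM (b.coord i) x := by
    clear h
    induction x using TensorProduct.induction_on with
    | zero => rw [Finset.sum_eq_zero fun i _ => by rw [map_zero, TensorProduct.tmul_zero]]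
    | tmul a m =>
      have h3 : ∀ i, b i ⊗ₜ[K] ctrM (b.coord i) (a ⊗ₜ[K] m) = (b.coord i a • b i) ⊗ₜ[K] m :=
        fun i => by rw [ctrM_tmul, TensorProduct.tmul_smul, TensorProduct.smul_tmul']
      rw [Finset.sum_congr rfl fun i _ => h3 i, ← TensorProduct.sum_tmul]
      congr 1
      exact (b.sum_repr a).symm
    | add x y hx hy =>
      conv_lhs => rw [hx, hy, ← Finset.sum_add_distrib]
      refine Finset.sum_congr rfl fun i _ => ?_
      rw [map_add, TensorProduct.tmul_add]
  rw [h1]
  exact Finset.sum_eq_zero fun i _ => by rw [h, TensorProduct.tmul_zero]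

lemma zero_of_indep {I : Type} [Fintype I] {e : I → A} (he : LinearIndependent K e)
    {y : I → M} (h : ∑ i, e i ⊗ₜ[K] y i = 0) (i : I) : y i = 0 := by
  classical
  obtain ⟨θ, hθ⟩ : ∃ θ : A →ₗ[K] K, ∀ j, θ (e j) = if j = i then 1 else 0 := by
    obtain ⟨g, hg⟩ := (Fintype.linearCombination K e).exists_leftInverse_of_injective
      (LinearMap.ker_eq_bot.2 (linearIndependent_iff_injective_fintypeLinearCombination.1 he))
    refine ⟨(LinearMap.proj i) ∘ₗ g, fun j => ?_⟩
    have h1 := LinearMap.congr_fun hg (Pi.single j 1)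
    rw [LinearMap.comp_apply, Fintype.linearCombination_apply_single, one_smul,
      LinearMap.id_apply] at h1
    rw [LinearMap.comp_apply, h1, LinearMap.proj_apply, Pi.single_apply]
    congr 1
    exact propext eq_comm
  have h1 := congrArg (ctrM θ) h
  rw [map_zero, map_sum, Finset.sum_congr rfl fun j _ => ctrM_tmul θ (e j) (y j),
    Finset.sum_eq_single i (fun j _ hj => by rw [hθ, if_neg hj, zero_smul])
      (fun h => absurd (Finset.mem_univ i) h), hθ, if_pos rfl, one_smul] at h1
  exact h1

end ctr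

end Pool.Agent.U222.TS
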